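import Pool.Agent.Y664.NZ.LiftCore
import Pool.Agent.Y164.NZ.Stm

/-!
NZ-LIFT (job 5984): factorization over `k` of polynomials with squarefree reduction.
-/

set_option autoImplicit false
set_option linter.all false

open Polynomial Finset
open scoped Classical

namespace Pool.Agent.Y664.NZ

theorem t : Pool.Agent.Y164.NZ.S_LIFT := by
  intro O k F _ _ _ _ _ _ _ ρ hρ κ J _ _ R hR cls f hu hf
  obtain ⟨κ', i1, R', π, cls', ⟨h1, h2, h3, h4⟩, h5, h6⟩ :=
    main (k := k) ρ κ J R hR.mon hR.irr hR.inj cls f hu (by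
      intro j
      rw [hf j])
  refine ⟨κ', i1, R', π, cls', ⟨h1, h2, h3, ?_⟩, h5, ?_⟩
  · intro x'
    rw [h4 x']
  · intro j
    exact h6 j

end Pool.Agent.Y664.NZ
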