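import Mathlib

/-!
Factorization of a monic polynomial over an integrally closed domain with squarefree reduction.
-/

set_option autoImplicit false
set_option linter.all false

open Polynomial Finset
open scoped Classical

namespace Pool.Agent.Y664.NZ

theorem fac {O k F : Type} [CommRing O] [IsDomain O] [IsIntegrallyClosed O] [Field k] [Algebra O k]
    [IsFractionRing O k] [Field F] (ρ : O →+* F) : ∀ (n : ℕ) (g : O[X]), g.natDegree = n →
    g.Monic → Squarefree (g.map ρ) →
    ∃ S : Finset O[X], (∀ P ∈ S, P.Monic ∧ Irreducible (P.map (algebraMap O k))) ∧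
      g = ∏ P ∈ S, P := by
  intro n
  induction n using Nat.strong_induction_on with
  | _ n ih =>
  intro g hn hg hsq
  by_cases h0 : n = 0
  · refine ⟨∅, by simp, ?_⟩
    rw [prod_empty]
    exact hg.natDegree_eq_zero.1 (by omega)
  have hnu : ¬ IsUnit (g.map (algebraMap O k)) := by
    intro hu
    have := natDegree_eq_zero_of_isUnit hu
    rw [hg.natDegree_map] at this
    omega
  obtain ⟨h, hm, hi, hd⟩ := exists_monic_irreducible_factor _ hnu
  obtain ⟨P, hP⟩ := IsIntegrallyClosed.eq_map_mul_C_of_dvd k hg hd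
  rw [hm.leadingCoeff, C_1, mul_one] at hP
  have hinj : Function.Injective (algebraMap O k) := IsFractionRing.injective O k
  have hPm : P.Monic := Polynomial.monic_of_injective hinj (by rw [hP]; exact hm)
  have hPd : P ∣ g := (Polynomial.map_dvd_map _ hinj hPm).1 (by rw [hP]; exact hd)
  obtain ⟨g', rfl⟩ := hPd
  have hg' : g'.Monic := hPm.of_mul_monic_left hg
  have hdeg : 0 < P.natDegree := by
    have h1 := hi.natDegree_pos
    rw [← hP, hPm.natDegree_map] at h1
    exact h1
  have hdm : (P * g').natDegree = P.natDegree + g'.natDegree := hPm.natDegree_mul hg'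
  have hsq' : Squarefree (g'.map ρ) := by
    rw [Polynomial.map_mul] at hsq
    exact hsq.of_mul_right
  obtain ⟨S, hS, hgS⟩ := ih g'.natDegree (by omega) g' rfl hg' hsq'
  have hPS : P ∉ S := by
    intro hPS
    have h1 : P ∣ g' := by rw [hgS]; exact dvd_prod_of_mem _ hPS
    have h2 : P.map ρ * P.map ρ ∣ (P * g').map ρ := by
      rw [Polynomial.map_mul]
      exact mul_dvd_mul_left _ (Polynomial.map_dvd ρ h1)
    have h3 := natDegree_eq_zero_of_isUnit (hsq _ h2)
    rw [hPm.natDegree_map] at h3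
    omega
  refine ⟨insert P S, ?_, by rw [prod_insert hPS, ← hgS]⟩
  intro Q hQ
  rcases mem_insert.1 hQ with rfl | hQ
  · exact ⟨hPm, by rw [hP]; exact hi⟩
  · exact hS Q hQ

theorem dvd_primes {k : Type} [Field k] {S m : k[X]} (hS : Squarefree S)
    (h : ∀ π : k[X], Irreducible π → π ∣ S → π ∣ m) : S ∣ m := by
  obtain ⟨q, hq⟩ := EuclideanDomain.gcd_dvd_left S m
  have hS0 : S ≠ 0 := hS.ne_zero
  have hu : IsUnit q := by
    by_contra hu
    have hq0 : q ≠ 0 := by
      rintro rfl
      rw [mul_zero] at hq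
      exact hS0 hq
    obtain ⟨π, hπ, hπq⟩ := WfDvdMonoid.exists_irreducible_factor hu hq0
    have h1 : π ∣ S := by rw [hq]; exact hπq.mul_left _
    have h3 : π ∣ EuclideanDomain.gcd S m := EuclideanDomain.dvd_gcd h1 (h π hπ h1)
    apply hπ.not_isUnit
    apply hS
    rw [hq]
    exact mul_dvd_mul h3 hπq
  obtain ⟨v, rfl⟩ := hu
  have h4 : S ∣ EuclideanDomain.gcd S m := by
    refine ⟨((v⁻¹ : (k[X])ˣ) : k[X]), ?_⟩
    nth_rewrite 2 [hq]
    rw [mul_assoc, Units.mul_inv, mul_one]
  exact h4.trans (EuclideanDomain.gcd_dvd_right S m)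

theorem main {O k F : Type} [CommRing O] [IsDomain O] [IsIntegrallyClosed O] [Field k] [Algebra O k]
    [IsFractionRing O k] [Field F] (ρ : O →+* F)
    (κ J : Type) [Fintype κ] [Fintype J] (R : κ → F[X]) (hm : ∀ x, (R x).Monic)
    (hi : ∀ x, Irreducible (R x)) (hinj : Function.Injective R) (cls : κ → J) (f : J → O[X])
    (hu : ∀ j, IsUnit (f j).leadingCoeff)
    (hf : ∀ j, (f j).map ρ =
      C (ρ (f j).leadingCoeff) * ∏ x ∈ univ.filter (fun x => cls x = j), R x) :
    ∃ (κ' : Type) (_ : Fintype κ') (R' : κ' → O[X]) (π : κ → κ') (cls' : κ' → J),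
      ((∀ x, (R' x).Monic) ∧ (∀ x, Irreducible ((R' x).map (algebraMap O k))) ∧
        Function.Injective R' ∧
        (∀ x', (R' x').map ρ = ∏ x ∈ univ.filter (fun x => π x = x'), R x)) ∧
      (∀ x, cls' (π x) = cls x) ∧
      ∀ j, f j = C (f j).leadingCoeff * ∏ x' ∈ univ.filter (fun x' => cls' x' = j), R' x' := by
  have hRR : ∀ (x : κ) (q : F[X]), Irreducible q → q ∣ R x → Associated q (R x) :=
    fun x q hq h => hq.associated_of_dvd (hi x) h
  have hRe : ∀ x y : κ, R x ∣ R y → x = y := fun x y h =>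
    hinj (eq_of_monic_of_associated (hm x) (hm y) (hRR y _ (hi x) h))
  have hcop : ∀ x y : κ, x ≠ y → IsCoprime (R x) (R y) := fun x y h =>
    (((hi x).coprime_iff_not_dvd).2 fun hd => h (hRe x y hd))
  set G : J → F[X] := fun j => ∏ x ∈ univ.filter (fun x => cls x = j), R x with hG
  have hGd : ∀ (j : J) (q : F[X]), Irreducible q → q ∣ G j → ∃ x, cls x = j ∧ Associated q (R x) := by
    intro j q hq h
    obtain ⟨x, hx, hd⟩ := hq.prime.exists_mem_finset_dvd h
    exact ⟨x, (mem_filter.1 hx).2, hRR x q hq hd⟩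
  have hGsq : ∀ j, Squarefree (G j) := by
    intro j
    apply Finset.squarefree_prod_of_pairwise_isCoprime
    · intro x _ y _ hxy
      exact (hcop x y hxy).isRelPrime
    · intro x _
      exact (hi x).squarefree
  have hg : ∀ j, ∃ g : O[X], g.Monic ∧ g.map ρ = G j ∧ f j = C (f j).leadingCoeff * g := by
    intro j
    obtain ⟨u, hu'⟩ := hu j
    have hf1 : f j = C (f j).leadingCoeff * (C ((u⁻¹ : Oˣ) : O) * f j) := by
      rw [← mul_assoc, ← C_mul, ← hu', Units.mul_inv, C_1, one_mul]
    refine ⟨C ((u⁻¹ : Oˣ) : O) * f j, ?_, ?_, hf1⟩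
    · rw [Monic, leadingCoeff_mul, leadingCoeff_C, ← hu', Units.inv_mul]
    · rw [Polynomial.map_mul, hf j, map_C, ← mul_assoc, ← C_mul, ← map_mul, ← hu', Units.inv_mul,
        map_one, C_1, one_mul]
  choose g hgm hgρ hfg using hg
  have hS := fun j => fac (k := k) ρ _ (g j) rfl (hgm j) (by rw [hgρ]; exact hGsq j)
  choose S hSP hgS using hS
  have hGS : ∀ j, G j = ∏ P ∈ S j, P.map ρ := by
    intro j
    have h1 := congrArg (Polynomial.map ρ) (hgS j)
    rw [hgρ j, Polynomial.map_prod] at h1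
    exact h1
  have hex : ∀ x, ∃ P ∈ S (cls x), R x ∣ P.map ρ := by
    intro x
    apply (hi x).prime.exists_mem_finset_dvd
    rw [← hGS (cls x), hG]
    exact dvd_prod_of_mem R (mem_filter.2 ⟨mem_univ x, rfl⟩)
  choose p hp hpd using hex
  have key1 : ∀ j, ∀ P ∈ S j, ∀ x, R x ∣ P.map ρ → cls x = j ∧ p x = P := by
    intro j P hP x hx
    have h1 : R x ∣ G j := hx.trans (by rw [hGS j]; exact dvd_prod_of_mem _ hP)
    obtain ⟨y, hy, h2⟩ := hGd j _ (hi x) h1
    have h3 : x = y := hRe x y h2.dvd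
    subst h3
    subst hy
    refine ⟨rfl, ?_⟩
    by_contra hne
    have h4 : R x * R x ∣ G (cls x) := by
      rw [hGS (cls x), ← mul_prod_erase _ _ hP]
      exact mul_dvd_mul hx ((hpd x).trans (dvd_prod_of_mem (fun P : O[X] => P.map ρ)
        (mem_erase.2 ⟨hne, hp x⟩)))
    exact (hi x).not_isUnit (hGsq _ _ h4)
  have key2 : ∀ j, ∀ P ∈ S j, P.map ρ = ∏ x ∈ univ.filter (fun x => cls x = j ∧ p x = P), R x := by
    intro j P hP
    have hPd : P.map ρ ∣ G j := by rw [hGS j]; exact dvd_prod_of_mem _ hP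
    refine eq_of_monic_of_associated ((hSP j P hP).1.map ρ) (monic_prod_of_monic _ _ fun x _ => hm x)
      (associated_of_dvd_dvd ?_ ?_)
    · refine dvd_primes ((hGsq j).squarefree_of_dvd hPd) fun q hq hd => ?_
      obtain ⟨x, hx, ha⟩ := hGd j q hq (hd.trans hPd)
      have h1 : R x ∣ P.map ρ := ha.symm.dvd.trans hd
      exact ha.dvd.trans (dvd_prod_of_mem R (mem_filter.2 ⟨mem_univ x, key1 j P hP x h1⟩))
    · apply prod_dvd_of_coprime
      · intro x _ y _ hxy
        exact hcop x y hxy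
      · intro x hx
        have h1 := (mem_filter.1 hx).2
        rw [← h1.2]
        exact hpd x
  have key3 : ∀ j, ∀ P ∈ S j, ∃ x, R x ∣ P.map ρ := by
    intro j P hP
    by_contra hne
    push Not at hne
    have h1 : P.map ρ = 1 := by
      rw [key2 j P hP]
      apply prod_eq_one
      intro x hx
      exfalso
      have h1 := (mem_filter.1 hx).2
      apply hne x
      rw [← h1.2]
      exact hpd x
    have h2 := (hSP j P hP).2.natDegree_pos
    have h3 := congrArg natDegree h1
    rw [(hSP j P hP).1.natDegree_map, natDegree_one] at h3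
    rw [(hSP j P hP).1.natDegree_map] at h2
    omega
  refine ⟨Σ j : J, {P : O[X] // P ∈ S j}, inferInstance, fun x' => x'.2.1,
    fun x => ⟨cls x, ⟨p x, hp x⟩⟩, fun x' => x'.1, ⟨?_, ?_, ?_, ?_⟩, ?_, ?_⟩
  · rintro ⟨j, P, hP⟩
    exact (hSP j P hP).1
  · rintro ⟨j, P, hP⟩
    exact (hSP j P hP).2
  · rintro ⟨j, P, hP⟩ ⟨j', P', hP'⟩ h
    have h' : P = P' := h
    subst h'
    obtain ⟨x, hx⟩ := key3 j P hP
    have h1 : j = j' := (key1 j P hP x hx).1.symm.trans (key1 j' P hP' x hx).1
    subst h1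
    rfl
  · rintro ⟨j, P, hP⟩
    rw [key2 j P hP]
    refine prod_congr ?_ fun _ _ => rfl
    ext x
    simp only [mem_filter, mem_univ, true_and]
    constructor
    · rintro ⟨h1, h2⟩
      subst h1
      subst h2
      rfl
    · intro h
      have h1 : cls x = j := congrArg Sigma.fst h
      subst h1
      have h2 := eq_of_heq (Sigma.mk.inj_iff.1 h).2
      exact ⟨rfl, congrArg Subtype.val h2⟩
  · intro x
    rfl
  · intro j
    conv_lhs => rw [hfg j, hgS j]
    congr 1
    rw [prod_filter, Fintype.prod_sigma]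
    rw [Fintype.prod_eq_single j]
    · rw [← Finset.prod_coe_sort (S j) (fun P => P)]
      refine prod_congr rfl fun x _ => ?_
      rw [if_pos rfl]
    · intro j' hj
      apply prod_eq_one
      intro x _
      rw [if_neg hj]

end Pool.Agent.Y664.NZ
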